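import Pool.Agent.Q152.EGZ

/-!
MP_4c442e_co, Q1: the conjecture of Berger and Wang on the modified Erdős–Ginzburg–Ziv constant of
`(ℤ/2^k)^d`, for all `k ≥ 0` and `d ≥ 1`.
-/

namespace Pool.Agent.Results.MP_4c442e_co.BergerWang

open Finset Pool.Agent.Q152

/-- `EGZProp G t L`: every zero-sum sequence over `G` of length at least `L` has a zero-sum
subsequence of length exactly `t`.  (A sequence of length `m` is a map from `Fin m`, a subsequence
is given by a set `I` of positions.)  The modified constant `s'_t(G)` is the least such `L`. -/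
def EGZProp (G : Type) [AddCommGroup G] (t L : ℕ) : Prop :=
  ∀ m : ℕ, L ≤ m → ∀ g : Fin m → G, ∑ i, g i = 0 →
    ∃ I : Finset (Fin m), I.card = t ∧ ∑ i ∈ I, g i = 0

/-- Index set of the standard sequence. -/
abbrev Ix (n d : ℕ) : Type := (Fin d → Fin 2) × Fin (n - 1)

/-- The standard sequence has no zero-sum subsequence of length `n`. -/
theorem std_free (n d : ℕ) (hn : 0 < n) (J : Finset (Ix n d)) (hJ : J.card = n)
    (h : ∀ c, n ∣ ∑ x ∈ J, (x.1 c : ℕ)) : False := by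
  have hlt : ∀ c, ∀ z ∈ J, (z.1 c : ℕ) ≤ 1 := fun c z _ => by
    have := (z.1 c).isLt
    omega
  have hconst : ∀ x ∈ J, ∀ y ∈ J, x.1 = y.1 := by
    intro x hx y hy
    funext c
    have h1 := h c
    by_contra hne
    have h3 : ∑ z ∈ J, (z.1 c : ℕ) < n := by
      have h6 : ∑ z ∈ J, 1 = n := by rw [← Finset.card_eq_sum_ones, hJ]
      refine lt_of_lt_of_eq ?_ h6
      apply Finset.sum_lt_sum (hlt c)
      by_cases h4 : (x.1 c : ℕ) = 0
      · exact ⟨x, hx, by omega⟩
      · refine ⟨y, hy, ?_⟩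
        by_contra h5
        apply hne
        ext
        have := hlt c x hx
        have := hlt c y hy
        omega
    have h4 : 0 < ∑ z ∈ J, (z.1 c : ℕ) := by
      apply Finset.sum_pos'
      · intro _ _; omega
      · by_cases h4 : (x.1 c : ℕ) = 0
        · refine ⟨y, hy, ?_⟩
          by_contra h5
          apply hne
          ext
          omega
        · exact ⟨x, hx, by omega⟩
    exact absurd (Nat.le_of_dvd h4 h1) (by omega)
  have : J.card ≤ (Finset.univ : Finset (Fin (n - 1))).card := by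
    apply Finset.card_le_card_of_injOn (fun x => x.2) (fun _ _ => Finset.mem_univ _)
    intro x hx y hy hxy
    ext1
    · exact hconst x (Finset.mem_coe.1 hx) y (Finset.mem_coe.1 hy)
    · exact hxy
  rw [hJ, Finset.card_univ, Fintype.card_fin] at this
  omega

theorem sum_cube (d : ℕ) (c : Fin d) : 2 * ∑ u : Fin d → Fin 2, (u c : ℕ) = 2 ^ d := by
  have h1 : ∑ u : Fin d → Fin 2, (u c : ℕ) = ∑ u : Fin d → Fin 2, (1 - (u c : ℕ)) := by
    refine Fintype.sum_equiv (Equiv.addRight (Pi.single c (1 : Fin 2))) _ _ fun u => ?_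
    simp only [Equiv.coe_addRight, Pi.add_apply, Pi.single_eq_same]
    have h2 : ∀ a : Fin 2, (a : ℕ) = 1 - ((a + 1 : Fin 2) : ℕ) := by decide
    exact h2 _
  rw [two_mul]
  nth_rewrite 2 [h1]
  rw [← Finset.sum_add_distrib, Finset.sum_congr rfl (g := fun _ => 1)]
  · simp
  · intro u _
    have := (u c).isLt
    omega

theorem sum_std (n d : ℕ) (c : Fin d) :
    2 * ∑ x : Ix n d, (x.1 c : ℕ) = (n - 1) * 2 ^ d := by
  rw [Fintype.sum_prod_type]
  simp only [Finset.sum_const, Finset.card_univ, Fintype.card_fin, smul_eq_mul]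
  rw [← Finset.mul_sum, ← sum_cube d c]
  ring

/-- The sequences for the lower bound, from a set `M` of indices. -/
theorem lower (k d L : ℕ) (M : Finset (Ix (2 ^ k) d)) (hML : L ≤ M.card)
    (v : Fin d → ZMod (2 ^ k))
    (hv : ∀ c, ∑ x ∈ M, ((x.1 c : ℕ) : ZMod (2 ^ k)) + M.card * v c = 0) :
    ¬ EGZProp (Fin d → ZMod (2 ^ k)) (2 ^ k) L := by
  intro H
  set f : Fin M.card → Ix (2 ^ k) d := fun i => (M.equivFin.symm i).1 with hf
  have hfinj : Function.Injective f := fun i j hij =>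
    M.equivFin.symm.injective (Subtype.ext hij)
  have hfM : ∀ F : Ix (2 ^ k) d → ZMod (2 ^ k), ∑ i, F (f i) = ∑ x ∈ M, F x := by
    intro F
    rw [← Finset.sum_coe_sort M F]
    exact Fintype.sum_equiv M.equivFin.symm _ _ fun i => rfl
  obtain ⟨I, hI, hI0⟩ := H M.card hML (fun i c => (((f i).1 c : ℕ) : ZMod (2 ^ k)) + v c) (by
    funext c
    rw [Finset.sum_apply, Finset.sum_add_distrib, hfM (fun x => ((x.1 c : ℕ) : ZMod (2 ^ k))),
      Finset.sum_const, Finset.card_univ, Fintype.card_fin, nsmul_eq_mul]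
    exact hv c)
  refine std_free (2 ^ k) d (by positivity) (I.map ⟨f, hfinj⟩) (by rw [Finset.card_map, hI]) ?_
  intro c
  rw [Finset.sum_map, ← ZMod.natCast_eq_zero_iff]
  have h1 := congrFun hI0 c
  rw [Finset.sum_apply] at h1
  simp only [Finset.sum_add_distrib, Finset.sum_const, hI, nsmul_eq_mul, Pi.zero_apply] at h1
  have h2 : ((2 ^ k : ℕ) : ZMod (2 ^ k)) = 0 := ZMod.natCast_self _
  rw [h2, zero_mul, add_zero] at h1
  push_cast
  exact h1

theorem upper (k d m : ℕ) (g : Fin m → (Fin d → ZMod (2 ^ k)))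
    (h : ¬ EGZ.Free (fun i c => ((g i c).val : ℤ)) k (Finset.univ : Finset (Fin m))) :
    ∃ I : Finset (Fin m), I.card = 2 ^ k ∧ ∑ i ∈ I, g i = 0 := by
  unfold EGZ.Free at h
  push Not at h
  obtain ⟨I, -, hI, hI0⟩ := h
  refine ⟨I, hI, ?_⟩
  funext c
  have h1 := hI0 c
  rw [Finset.sum_apply]
  have h2 : ((∑ i ∈ I, ((g i c).val : ℤ) : ℤ) : ZMod (2 ^ k)) = ∑ i ∈ I, g i c := by
    push_cast
    exact Finset.sum_congr rfl fun i _ => by
      rw [ZMod.natCast_val, ZMod.cast_id]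
  rw [← h2]
  simp only [Pi.zero_apply]
  rw [ZMod.intCast_zmod_eq_zero_iff_dvd, Nat.cast_pow, Nat.cast_ofNat]
  exact h1

/-- **The conjecture of Berger and Wang**: for `n = 2 ^ k` and every `d ≥ 1`,
`s'_n((ℤ/nℤ)^d) = 2 ^ d n - ℓ + 1`, where `ℓ` is the least integer `≥ 2 ^ d` not dividing `n`. -/
theorem result : ∀ k d : ℕ, 1 ≤ d → ∀ ℓ : ℕ,
    IsLeast {m : ℕ | 2 ^ d ≤ m ∧ ¬ m ∣ 2 ^ k} ℓ →
      IsLeast {L : ℕ | EGZProp (Fin d → ZMod (2 ^ k)) (2 ^ k) L} (2 ^ d * 2 ^ k - ℓ + 1) := by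
  intro k d hd ℓ hℓ
  have hk1 : 1 ≤ 2 ^ k := Nat.one_le_two_pow
  have hd1 : 2 ≤ 2 ^ d := by
    calc 2 = 2 ^ 1 := rfl
      _ ≤ 2 ^ d := Nat.pow_le_pow_right (by norm_num) hd
  have hN : (2 ^ k - 1) * 2 ^ d + 2 ^ d = 2 ^ d * 2 ^ k := by
    obtain ⟨a, ha⟩ : ∃ a, 2 ^ k = a + 1 := ⟨2 ^ k - 1, by omega⟩
    rw [ha, Nat.add_sub_cancel]
    ring
  have hcard : (Finset.univ : Finset (Ix (2 ^ k) d)).card = (2 ^ k - 1) * 2 ^ d := by
    simp [Finset.card_univ, mul_comm]
  rcases Nat.lt_or_ge k d with hkd | hkd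
  · -- `n < 2 ^ d`
    have hlt : 2 ^ k < 2 ^ d := Nat.pow_lt_pow_right (by norm_num) hkd
    have hℓ' : ℓ = 2 ^ d :=
      le_antisymm (hℓ.2 ⟨le_rfl, fun h => absurd (Nat.le_of_dvd (by omega) h) (by omega)⟩) hℓ.1.1
    subst hℓ'
    have hval : 2 ^ d * 2 ^ k - 2 ^ d + 1 = (2 ^ k - 1) * 2 ^ d + 1 := by omega
    rw [hval]
    constructor
    · intro m hm g _
      exact upper k d m g (EGZ.harborth k _ _ (by simpa using hm))
    · intro L hL
      by_contra hlt'
      refine lower k d L Finset.univ (by rw [hcard]; omega) 0 ?_ hL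
      intro c
      simp only [Pi.zero_apply, mul_zero, add_zero]
      have h1 := sum_std (2 ^ k) d c
      obtain ⟨e, rfl⟩ : ∃ e, d = k + 1 + e := ⟨d - (k + 1), by omega⟩
      have h2 : ∑ x : Ix (2 ^ k) (k + 1 + e), (x.1 c : ℕ) = 2 ^ k * ((2 ^ k - 1) * 2 ^ e) := by
        have : (2 ^ k - 1) * 2 ^ (k + 1 + e) = 2 * (2 ^ k * ((2 ^ k - 1) * 2 ^ e)) := by ring
        omega
      rw [← Nat.cast_sum, h2, Nat.cast_mul, ZMod.natCast_self, zero_mul]
  · -- `2 ^ d ∣ n`
    have hdk : 2 ^ d ∣ 2 ^ k := pow_dvd_pow 2 hkd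
    have hodd : ¬ (2 ^ d + 1) ∣ 2 ^ k := by
      intro h
      have h1 : Nat.Coprime (2 ^ d + 1) (2 ^ k) := by
        apply Nat.Coprime.pow_right
        rw [Nat.coprime_two_right]
        exact Even.add_one ((Nat.even_pow' (by omega)).2 even_two)
      have h2 : 2 ^ d + 1 = 1 := h1.eq_one_of_dvd h
      omega
    have hℓ' : ℓ = 2 ^ d + 1 := by
      refine le_antisymm (hℓ.2 ⟨by omega, hodd⟩) ?_
      rcases Nat.lt_or_ge (2 ^ d) ℓ with h | h
      · exact h
      · have : ℓ = 2 ^ d := le_antisymm h hℓ.1.1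
        exact absurd (this ▸ hdk) hℓ.1.2
    subst hℓ'
    have hk2 : 2 ≤ 2 ^ k := hd1.trans (Nat.le_of_dvd (by omega) hdk)
    have hpos : 2 ^ d ≤ (2 ^ k - 1) * 2 ^ d := Nat.le_mul_of_pos_left _ (by omega)
    have hval : 2 ^ d * 2 ^ k - (2 ^ d + 1) + 1 = (2 ^ k - 1) * 2 ^ d := by omega
    rw [hval]
    constructor
    · intro m hm g hg
      refine upper k d m g ?_
      rcases Nat.lt_or_ge ((2 ^ k - 1) * 2 ^ d) m with h | h
      · exact EGZ.harborth k _ _ (by simpa using h)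
      · refine EGZ.not_free_of_sum k hd hkd _ _ (by simpa using le_antisymm h hm) ?_
        intro c
        have h1 := congrFun hg c
        rw [Finset.sum_apply] at h1
        have h2 : ((∑ i, ((g i c).val : ℤ) : ℤ) : ZMod (2 ^ k)) = ∑ i, g i c := by
          push_cast
          exact Finset.sum_congr rfl fun i _ => by
            rw [ZMod.natCast_val, ZMod.cast_id]
        rw [← h2, Pi.zero_apply, ZMod.intCast_zmod_eq_zero_iff_dvd] at h1
        exact_mod_cast h1
    · intro L hL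
      by_contra hlt'
      have hne : 0 < 2 ^ k - 1 := by omega
      set x₀ : Ix (2 ^ k) d := (0, ⟨0, hne⟩) with hx₀
      set M := (Finset.univ : Finset (Ix (2 ^ k) d)).erase x₀ with hM
      have hMc : M.card = (2 ^ k - 1) * 2 ^ d - 1 := by
        rw [hM, Finset.card_erase_of_mem (Finset.mem_univ _), hcard]
      have hunit : IsUnit (M.card : ZMod (2 ^ k)) := by
        rw [ZMod.isUnit_iff_coprime, hMc]
        apply Nat.Coprime.pow_right
        rw [Nat.coprime_two_right]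
        have he : Even ((2 ^ k - 1) * 2 ^ d) :=
          ((Nat.even_pow' (by omega)).2 even_two).mul_left _
        obtain ⟨a, ha⟩ := he
        exact ⟨a - 1, by omega⟩
      obtain ⟨u, hu⟩ := hunit
      refine lower k d L M (by rw [hMc]; omega)
        (fun c => -(↑u⁻¹ * ∑ x ∈ M, ((x.1 c : ℕ) : ZMod (2 ^ k)))) ?_ hL
      intro c
      rw [← hu]
      simp

end Pool.Agent.Results.MP_4c442e_co.BergerWang
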